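import Pool.Agent.Results.MP_11675a_co.NearTop
import Pool.Agent.Lib.MP_11675a_co.Count
import Pool.Agent.Lib.MP_11675a_co.Growth

/-!
# The polygons exist for almost all `m`

The number of square-free `m ≤ X`, `m ≡ 3 mod 4`, for which `Λ(m)` contains no equilateral `p`-gon,
`p` the greatest prime factor of `m`, is at most `C X exp (-(log X)^(1/2) / 2)`.

By `NearTop` such an `m` has a further prime factor `q` with `p - q ≤ ω(m) (11 t + 26)`, `t` about `p^(1/4)`.
Either `ω(m) > W`, or all primes are at most `Y` and `m ≤ Y^W`, or `m` is divisible by `p q` with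
`p > Y` and `q` close to `p`.
-/

set_option autoImplicit false

namespace Pool.Agent.Results.MP_11675a_co.AlmostAll

open Pool.Agent.Lib.MP_11675a_co Finset

/-- the square-free `m ≤ X`, `m ≡ 3 mod 4`, with greatest prime factor `p` such that `Λ(m)` contains
no equilateral `p`-gon -/
def Exceptions (X : ℕ) : Set ℕ :=
  {m | m ≤ X ∧ Squarefree m ∧ m % 4 = 3 ∧ ∃ p : ℕ, p.Prime ∧ p ∣ m ∧
    (∀ q : ℕ, q.Prime → q ∣ m → q ≤ p) ∧ ¬ HasEquilateralPolygon m p}

open Classical in
theorem cover (X Y W : ℕ) (hY : 1 ≤ Y) : Exceptions X ⊆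
    (((Ioc 0 X).filter (fun m => W < m.primeFactors.card)) ∪ (Icc 0 (Y ^ W)) ∪
      ((Ioc 0 X).filter (fun m => ∃ p q : ℕ, Y < p ∧ q < p ∧ p < q + W * (11 * tp p + 26) ∧
        p * q ∣ m)) : Finset ℕ) := by
  rintro m ⟨hmX, hsq, hm4, p, hp, hpm, hmax, hno⟩
  have hm0 : 0 < m := by omega
  rw [Finset.mem_coe, Finset.mem_union, Finset.mem_union, Finset.mem_filter, Finset.mem_filter,
    Finset.mem_Ioc, Finset.mem_Icc]
  by_cases hW : W < m.primeFactors.card
  · exact Or.inl (Or.inl ⟨⟨hm0, hmX⟩, hW⟩)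
  push Not at hW
  by_cases hpY : p ≤ Y
  · refine Or.inl (Or.inr ⟨Nat.zero_le _, le_pow_of_smooth hsq hY (fun q hq => ?_) hW⟩)
    exact (hmax q (Nat.prime_of_mem_primeFactors hq) (Nat.dvd_of_mem_primeFactors hq)).trans hpY
  push Not at hpY
  refine Or.inr ⟨⟨hm0, hmX⟩, ?_⟩
  by_contra hcon
  push Not at hcon
  apply hno
  refine NearTop.result m p (tp p) hsq hm4 hp hpm hmax (le_tp p) ?_
  intro q hq hqm hqp
  have hqlt : q < p := lt_of_le_of_ne (hmax q hq hqm) hqp
  by_contra hlt
  push Not at hlt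
  have hcop : Nat.Coprime p q := (Nat.coprime_primes hp hq).mpr (Ne.symm hqp)
  refine hcon p q hpY hqlt ?_ (hcop.mul_dvd_of_dvd_of_dvd hpm hqm)
  have hω : 1 ≤ m.primeFactors.card :=
    Finset.card_pos.mpr ⟨p, Nat.mem_primeFactors.mpr ⟨hp, hpm, hm0.ne'⟩⟩
  have h1 : min (2 * Nat.primeCounting p) ((m.primeFactors.card - 1) * (11 * tp p + 21)) ≤
      (W - 1) * (11 * tp p + 26) := by
    refine (min_le_right _ _).trans ?_
    exact Nat.mul_le_mul (by omega) (by omega)
  have h2 : (W - 1) * (11 * tp p + 26) + (11 * tp p + 26) = W * (11 * tp p + 26) := by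
    obtain ⟨w, rfl⟩ : ∃ w, W = w + 1 := ⟨W - 1, by omega⟩
    rw [Nat.add_sub_cancel]
    ring
  omega

theorem result : ∃ C : ℝ, ∀ X : ℕ, 1 ≤ X →
    ((Exceptions X).ncard : ℝ) ≤ C * X * Real.exp (-(Real.sqrt (Real.log X) / 2)) := by
  classical
  refine ⟨Real.exp 15 + 7001, fun X hX => ?_⟩
  have hX0 : (0 : ℝ) < X := by exact_mod_cast hX
  have hlog : 0 ≤ Real.log X := Real.log_nonneg (by exact_mod_cast hX)
  set L : ℝ := Real.sqrt (Real.log X) with hL
  have hL2 : L ^ 2 = Real.log X := Real.sq_sqrt hlog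
  have hE : 0 < Real.exp (-(L / 2)) := Real.exp_pos _
  rcases lt_or_ge L 30 with h30 | h30
  · -- small `X`
    have h1 : ((Exceptions X).ncard : ℝ) ≤ X := by
      have h2 : Exceptions X ⊆ ((Icc 1 X : Finset ℕ) : Set ℕ) := by
        rintro m ⟨hmX, _, hm4, _⟩
        rw [Finset.mem_coe, Finset.mem_Icc]
        omega
      have h3 := Set.ncard_le_ncard h2 (Finset.finite_toSet _)
      rw [Set.ncard_coe_finset, Nat.card_Icc] at h3
      exact_mod_cast (by omega : (Exceptions X).ncard ≤ X)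
    have h4 : 1 ≤ Real.exp 15 * Real.exp (-(L / 2)) := by
      rw [← Real.exp_add]
      exact Real.one_le_exp (by linarith)
    calc ((Exceptions X).ncard : ℝ) ≤ X := h1
      _ ≤ X * (Real.exp 15 * Real.exp (-(L / 2))) := le_mul_of_one_le_right hX0.le h4
      _ ≤ (Real.exp 15 + 7001) * X * Real.exp (-(L / 2)) := by
          have : 0 ≤ 7001 * X * Real.exp (-(L / 2)) := by positivity
          linarith
  · obtain ⟨W, Y, hY, hYW, hfin⟩ := growth X hX L h30 hL2
    have hcov := Set.ncard_le_ncard (cover X Y W hY) (Finset.finite_toSet _)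
    rw [Set.ncard_coe_finset] at hcov
    have hA := card_many X W hX
    have hB := card_close X Y W hY hYW
    have hcard : ((Exceptions X).ncard : ℝ) ≤
        (((Ioc 0 X).filter (fun m => W < m.primeFactors.card)).card : ℝ) + ((Y ^ W : ℕ) + 1 : ℝ) +
        (((Ioc 0 X).filter (fun m => ∃ p q : ℕ, Y < p ∧ q < p ∧
          p < q + W * (11 * tp p + 26) ∧ p * q ∣ m)).card : ℝ) := by
      have h1 := hcov.trans ((Finset.card_union_le _ _).trans
        (Nat.add_le_add_right (Finset.card_union_le _ _) _))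
      rw [Nat.card_Icc, Nat.sub_zero] at h1
      exact_mod_cast h1
    have hA' : (((Ioc 0 X).filter (fun m => W < m.primeFactors.card)).card : ℝ) ≤
        X * (1 + Real.log X) / 2 ^ (W + 1) := by
      rw [le_div_iff₀ (by positivity)]
      exact hA
    -- the summand one
    have hone : 1 ≤ X * Real.exp (-(L / 2)) := by
      have hXe : (X : ℝ) = Real.exp (L ^ 2) := by rw [hL2, Real.exp_log hX0]
      rw [hXe, ← Real.exp_add]
      exact Real.one_le_exp (by nlinarith)
    have h15 : 0 ≤ Real.exp 15 * X * Real.exp (-(L / 2)) := by positivity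
    linarith

end Pool.Agent.Results.MP_11675a_co.AlmostAll
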