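import Pool.Agent.Results.MP_11675a_co.NearTop
import Pool.Agent.Lib.MP_11675a_co.General

/-!
# Equilateral polygons of every size slightly above the greatest prime factor, for every `m`

Let `m` be square-free, `m ≡ 3 mod 4`, with `k` prime factors, all at most `P`. Then `Λ(m)` contains
an equilateral `n`-gon for every `n ≥ P + g` (and `n ≥ 2 g`), where
`g ≥ min (2 π(P)) (k (11 t + 21)) + 22 t + 64` and `t` is about the fourth root.

A total `n₀ = 9 r` just below is reached by the chain of isosceles trapezoids: the numbers `m`, `r` and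
the parameter `c` of the main relation are all reduced to `1` or `3` times a square.
-/

set_option autoImplicit false

namespace Pool.Agent.Results.MP_11675a_co.EveryM

open Pool.Agent.Lib.MP_11675a_co

theorem result (m P t g N n : ℕ) (hsq : Squarefree m) (hm : m % 4 = 3)
    (hP : ∀ q : ℕ, q.Prime → q ∣ m → q ≤ P) (ht : N ≤ t ^ 4)
    (hg : min (2 * Nat.primeCounting P) (m.primeFactors.card * (11 * t + 21)) + (22 * t + 64) ≤ g)
    (hN : max P g + g ≤ N) (hn : N ≤ n) : HasEquilateralSides m n := by
  have hmodd : m % 2 = 1 := by omega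
  have hN1 : P + g ≤ N := (Nat.add_le_add_right (le_max_left P g) g).trans hN
  have hN2 : g + g ≤ N := (Nat.add_le_add_right (le_max_right P g) g).trans hN
  set μ := min (2 * Nat.primeCounting P) (m.primeFactors.card * (11 * t + 21)) with hμ
  -- the total
  obtain ⟨r, hr1, hr2, hr3⟩ : ∃ r, r % 2 = 1 ∧ 9 * r ≤ N ∧ N ≤ 9 * r + 17 :=
    ⟨2 * ((N - 9) / 18) + 1, by omega, by omega, by omega⟩
  have hn0 : ∃ n₀, n₀ = 9 * r := ⟨_, rfl⟩
  obtain ⟨n₀, hn₀⟩ := hn0
  -- the parameter `c`
  obtain ⟨c, hc4, hc1, hc2, hc0⟩ : ∃ c : ℕ, c % 4 = n₀ % 4 ∧ 2 * P + 4 ≤ n₀ + c ∧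
      c + 2 * μ + 2 * (22 * t + 41) + 4 ≤ n₀ ∧ 0 < c := by
    obtain ⟨j, hj1, hj2⟩ : ∃ j, 2 * μ + 2 * (22 * t + 41) + 4 ≤ 4 * j ∧
        4 * j ≤ 2 * μ + 2 * (22 * t + 41) + 7 :=
      ⟨(2 * μ + 2 * (22 * t + 41) + 7) / 4, by omega, by omega⟩
    exact ⟨n₀ - 4 * j, by omega, by omega, by omega, by omega⟩
  have hRc : Red (n₀ + c) c (22 * t + 41) :=
    red_quartic (by omega) (by omega) (by omega)
  have hRr : Red (n₀ + c) r (22 * t + 41) :=
    red_quartic hr1 (by omega) (by omega)
  have hRm : Red (n₀ + c) m (2 * μ) := by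
    rcases le_total (2 * Nat.primeCounting P) (m.primeFactors.card * (11 * t + 21)) with h | h
    · rw [hμ, min_eq_left h]
      exact (red_pi P m hmodd hP hc1).mono (by omega)
    · rw [hμ, min_eq_right h]
      have hR := NearTop.red_prod (K := n₀ + c) (y := P) (t := t) (by omega) m.primeFactors (by
        intro q hq
        have hqp := Nat.prime_of_mem_primeFactors hq
        have hqd := Nat.dvd_of_mem_primeFactors hq
        have hqP := hP q hqp hqd
        refine ⟨?_, by omega, hqP⟩
        rcases hqp.eq_two_or_odd with h2 | h2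
        · exfalso
          subst h2
          omega
        · exact h2)
      rw [Nat.prod_primeFactors_of_squarefree hsq] at hR
      refine hR.mono ?_
      have : 2 * (m.primeFactors.card * (11 * t + 21)) =
        m.primeFactors.card * (22 * t + 42) := by ring
      rw [this]
      exact Nat.mul_le_mul_left _ (by omega)
  have hS : Sides m n₀ := assemble_general hn₀ hr1 hm hc4 hRm hRc hRr (by omega)
  exact (hS.of_le (by omega) (by omega)).vectors

end Pool.Agent.Results.MP_11675a_co.EveryM
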