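import Mathlib
import Pool.Agent.Lib.MP_11675a_co.Defs
import Pool.Agent.Lib.MP_11675a_co.PairUp

set_option autoImplicit false

namespace Pool.Agent.Results.MP_11675a_co.SumBelow

open Pool.Agent.Lib.MP_11675a_co

theorem result (m p : ℕ) (hsq : Squarefree m) (hm : m % 4 = 3) (hp : p.Prime) (hpm : p ∣ m)
    (hmax : ∀ q : ℕ, q.Prime → q ∣ m → q ≤ p)
    (hsum : ∀ q r : ℕ, q.Prime → r.Prime → q ∣ m → r ∣ m → q ≠ r → q ≠ p → r ≠ p → q + r < p) :
    HasEquilateralPolygon m p := by
  obtain ⟨M, rfl⟩ := hpm
  have hM0 : M ≠ 0 := by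
    rintro rfl
    simp at hm
  have hMsq : Squarefree M := hsq.squarefree_of_dvd (dvd_mul_left M p)
  have hcop : ¬ p ∣ M := by
    have := Nat.squarefree_mul_iff.mp hsq
    exact (Nat.Prime.coprime_iff_not_dvd hp).mp this.1
  have hpodd : p % 2 = 1 := by
    rcases Nat.mod_two_eq_zero_or_one p with h | h
    · exfalso
      have : (p * M) % 2 = 0 := by rw [Nat.mul_mod, h]; simp
      omega
    · exact h
  have hp2 : p ≠ 2 := by rintro rfl; omega
  have hModd : M % 2 = 1 := by
    rcases Nat.mod_two_eq_zero_or_one M with h | h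
    · exfalso
      have : (p * M) % 2 = 0 := by rw [Nat.mul_mod, h]; simp
      omega
    · exact h
  have hp3 : 3 ≤ p := by
    have := hp.two_le
    omega
  -- facts on primes of M
  have hfac : ∀ q ∈ M.primeFactors, q.Prime ∧ q ∣ p * M ∧ q ≠ p ∧ q % 2 = 1 ∧ q + 2 ≤ p := by
    intro q hq
    have hq' := Nat.prime_of_mem_primeFactors hq
    have hqd := Nat.dvd_of_mem_primeFactors hq
    have hqp : q ≠ p := by
      rintro rfl
      exact hcop hqd
    have hqodd : q % 2 = 1 := by
      rcases Nat.mod_two_eq_zero_or_one q with h | h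
      · exfalso
        have : 2 ∣ M := (Nat.dvd_of_mod_eq_zero h).trans hqd
        omega
      · exact h
    have hle := hmax q hq' (hqd.mul_left p)
    exact ⟨hq', hqd.mul_left p, hqp, hqodd, by omega⟩
  set F1 := M.primeFactors.filter (fun q => q % 4 = 1) with hF1
  set F3 := M.primeFactors.filter (fun q => ¬ q % 4 = 1) with hF3
  have hm1 : ∀ x ∈ descList F1, 0 < x ∧ (x - 1) % 4 = 0 ∧ x + 2 ≤ p := by
    intro x hx
    obtain ⟨n, hn, rfl⟩ := (mem_descList _ _).mp hx
    rw [hF1, Finset.mem_filter] at hn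
    obtain ⟨h1, h2, h3, h4, h5⟩ := hfac n hn.1
    have := h1.pos
    have := hn.2
    omega
  have hm3 : ∀ x ∈ descList F3, 0 < x ∧ (x - (-1)) % 4 = 0 ∧ x + 2 ≤ p := by
    intro x hx
    obtain ⟨n, hn, rfl⟩ := (mem_descList _ _).mp hx
    rw [hF3, Finset.mem_filter] at hn
    obtain ⟨h1, h2, h3, h4, h5⟩ := hfac n hn.1
    have := h1.pos
    have := hn.2
    omega
  have hmM : ∀ x : ℤ, x ∈ descList F1 ∨ x ∈ descList F3 → ∃ n : ℕ, n ∈ M.primeFactors ∧ x = n := by
    intro x hx
    rcases hx with hx | hx
    · obtain ⟨n, hn, rfl⟩ := (mem_descList _ _).mp hx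
      rw [hF1, Finset.mem_filter] at hn
      exact ⟨n, hn.1, rfl⟩
    · obtain ⟨n, hn, rfl⟩ := (mem_descList _ _).mp hx
      rw [hF3, Finset.mem_filter] at hn
      exact ⟨n, hn.1, rfl⟩
  have hpair : ∀ x y : ℤ, (x ∈ descList F1 ∨ x ∈ descList F3) →
      (y ∈ descList F1 ∨ y ∈ descList F3) → x ≠ y → x + y ≤ p - 1 := by
    intro x y hx hy hxy
    obtain ⟨a, ha, rfl⟩ := hmM x hx
    obtain ⟨b, hb, rfl⟩ := hmM y hy
    have hab : a ≠ b := by
      rintro rfl
      exact hxy rfl
    obtain ⟨h1, h2, h3, h4, h5⟩ := hfac a ha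
    obtain ⟨k1, k2, k3, k4, k5⟩ := hfac b hb
    have := hsum a b h1 k1 h2 k2 hab h3 k3
    omega
  -- products
  have hprodM : (descList F1).prod * (descList F3).prod = (M : ℤ) := by
    rw [descList_prod, descList_prod, hF1, hF3, Finset.prod_filter_mul_prod_filter_not]
    have := congrArg (Nat.cast : ℕ → ℤ) (Nat.prod_primeFactors_of_squarefree hMsq)
    rw [Nat.cast_prod] at this
    exact this
  set n3 := (descList F3).length with hn3
  have hmod1 := prod_mod_four 1 (descList F1) (fun x hx => (hm1 x hx).2.1)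
  have hmod3 := prod_mod_four (-1) (descList F3) (fun x hx => (hm3 x hx).2.1)
  rw [one_pow] at hmod1
  rw [← hn3] at hmod3
  -- the sign
  set δ : ℤ := if n3 % 2 = 1 then -1 else 1 with hδ
  have hδpow : (-1 : ℤ) ^ n3 = δ := by
    rw [hδ]
    split_ifs with h
    · exact Odd.neg_one_pow (Nat.odd_iff.mpr h)
    · exact Even.neg_one_pow (Nat.even_iff.mpr (by omega))
  rw [hδpow] at hmod3
  have hδ1 : δ = 1 ∨ δ = -1 := by
    rw [hδ]
    split_ifs
    · right; rfl
    · left; rfl
  -- p + δ = 0 mod 4
  have hMmod : ((M : ℤ) - δ) % 4 = 0 := by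
    obtain ⟨u, hu⟩ := Int.dvd_of_emod_eq_zero hmod1
    obtain ⟨v, hv⟩ := Int.dvd_of_emod_eq_zero hmod3
    apply Int.emod_eq_zero_of_dvd
    refine ⟨u * (descList F3).prod + v, ?_⟩
    rw [← hprodM]
    linear_combination (descList F3).prod * hu + hv
  have hpδ : ((p : ℤ) - (-δ)) % 4 = 0 := by
    have h1 : ((p : ℤ) * M) % 4 = 3 := by exact_mod_cast congrArg (Nat.cast : ℕ → ℤ) hm
    obtain ⟨u, hu⟩ := Int.dvd_of_emod_eq_zero hMmod
    have hMe : (M : ℤ) = δ + 4 * u := by linarith
    rw [hMe] at h1
    rcases hδ1 with h | h <;> rw [h] at h1 ⊢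
    · have : (p : ℤ) * (1 + 4 * u) = p + 4 * (p * u) := by ring
      rw [this] at h1
      omega
    · have : (p : ℤ) * (-1 + 4 * u) = -p + 4 * (p * u) := by ring
      rw [this] at h1
      omega
  set l := pairUp 1 (descList F1) ++ pairUp (-1) (descList F3) with hl
  have hok1 := pairUp_ok 1 (Or.inl rfl) (descList F1) (descList_pairwise F1)
    (fun x hx => ⟨(hm1 x hx).1, (hm1 x hx).2.1⟩)
  have hok3 := pairUp_ok (-1) (Or.inr rfl) (descList F3) (descList_pairwise F3)
    (fun x hx => ⟨(hm3 x hx).1, (hm3 x hx).2.1⟩)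
  have hok : ∀ z ∈ l, Ok z := by
    intro z hz
    rw [hl, List.mem_append] at hz
    rcases hz with hz | hz
    · exact hok1 z hz
    · exact hok3 z hz
  have hv1 := pairUp_sums_mem 1 (by norm_num) (p - 1) (descList F1) (descList_pairwise F1)
    (fun x hx => by have := (hm1 x hx).2.2; omega)
    (fun x hx y hy hxy => hpair x y (Or.inl hx) (Or.inl hy) hxy)
  have hv3 := pairUp_sums_mem (-1) (by norm_num) (p - 1) (descList F3) (descList_pairwise F3)
    (fun x hx => by have := (hm3 x hx).2.2; omega)
    (fun x hx y hy hxy => hpair x y (Or.inr hx) (Or.inr hy) hxy)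
  have hcost : (l.map (fun y => y.1 - y.2)).sum ≤ p := by
    rw [hl, List.map_append, List.sum_append]
    have hs1 := pairUp_sum 1 0 le_rfl (by norm_num) (descList F1) (descList_pairwise F1)
      (fun x hx => (hm1 x hx).1)
    have hs3 := pairUp_sum (-1) 1 (by norm_num) (by norm_num) (descList F3) (descList_pairwise F3)
      (fun x hx => (hm3 x hx).1)
    have hp1 := descList_pairwise F1
    have hp3' := descList_pairwise F3
    rcases h1 : descList F1 with _ | ⟨q, t⟩
    · have := hs3 (p - 2) (by omega) (fun x hx => by have := (hm3 x hx).2.2; omega)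
      simp only [pairUp, List.map_nil, List.sum_nil]
      omega
    · rcases h3 : descList F3 with _ | ⟨r, t'⟩
      · have := hs1 (p - 2) (by omega) (fun x hx => by have := (hm1 x hx).2.2; omega)
        rw [h1] at this
        simp only [pairUp, List.map_nil, List.sum_nil]
        omega
      · rw [h1] at hp1
        rw [h3] at hp3'
        have hq0 := hm1 q (by rw [h1]; simp)
        have hr0 := hm3 r (by rw [h3]; simp)
        have h4 := hs1 q (by omega) (by
          intro x hx
          rw [h1, List.mem_cons] at hx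
          rcases hx with rfl | hx
          · exact le_rfl
          · exact ((List.pairwise_cons.mp hp1).1 x hx).le)
        have h5 := hs3 r (by omega) (by
          intro x hx
          rw [h3, List.mem_cons] at hx
          rcases hx with rfl | hx
          · exact le_rfl
          · exact ((List.pairwise_cons.mp hp3').1 x hx).le)
        have h6 := hpair q r (Or.inl (by rw [h1]; simp)) (Or.inr (by rw [h3]; simp)) (by
          intro h
          omega)
        rw [h1] at h4
        rw [h3] at h5
        omega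
  have hcost4 : (l.map (fun y => y.1 - y.2)).sum % 4 = 0 := by
    have : ∀ l' : List (ℤ × ℤ), (∀ z ∈ l', Ok z) → (l'.map (fun y => y.1 - y.2)).sum % 4 = 0 := by
      intro l'
      induction l' with
      | nil => intro _; simp
      | cons a t ih =>
        intro h
        have h1 := (h a (by simp)).2.2.2.2
        have h2 := ih (fun z hz => h z (by simp [hz]))
        rw [List.map_cons, List.sum_cons]
        omega
    exact this l hok
  have hprod : -(-δ) * ((l.map (fun y => y.1)).prod * (l.map (fun y => y.2)).prod)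
      = (M : ℤ) * 1 ^ 2 := by
    have e1 := pairUp_prod 1 (descList F1)
    have e3 := pairUp_prod (-1) (descList F3)
    rw [← hn3, ← hδ] at e3
    rw [hl]
    simp only [List.map_append, List.prod_append]
    have : (if (descList F1).length % 2 = 1 then (1 : ℤ) else 1) = 1 := by simp
    rw [this, mul_one] at e1
    have hδδ : δ * δ = 1 := by
      rcases hδ1 with h | h <;> rw [h] <;> norm_num
    calc _ = δ * ((((pairUp 1 (descList F1)).map (fun y => y.1)).prod *
            ((pairUp 1 (descList F1)).map (fun y => y.2)).prod) *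
            (((pairUp (-1) (descList F3)).map (fun y => y.1)).prod *
            ((pairUp (-1) (descList F3)).map (fun y => y.2)).prod)) := by ring
      _ = δ * ((descList F1).prod * ((descList F3).prod * δ)) := by rw [e1, e3]
      _ = (δ * δ) * ((descList F1).prod * (descList F3).prod) := by ring
      _ = _ := by rw [hδδ, hprodM]; ring
  obtain ⟨N, hN1, hN2, hN3⟩ := chain (p := (p : ℤ)) (M := (M : ℤ)) (by omega)
    (by exact_mod_cast Nat.pos_of_ne_zero hM0) (by omega) (-δ) 1 hpδ
    (by rcases hδ1 with h | h <;> rw [h] <;> omega) l hok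
    (by
      intro z hz
      have : z.1 + z.2 ≤ (p : ℤ) - 1 := by
        rw [hl, List.mem_append] at hz
        rcases hz with hz | hz
        · exact hv1 z hz
        · exact hv3 z hz
      rcases hδ1 with h | h <;> rw [h] <;> omega)
    (by rcases hδ1 with h | h <;> rw [h] at hpδ ⊢ <;> omega) hprod
  exact polygon_of_multiset hp hp2 hcop N hN1 hN2 (by exact_mod_cast hN3)

end Pool.Agent.Results.MP_11675a_co.SumBelow
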