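import Mathlib
import Pool.Agent.Lib.MP_11675a_co.Assemble
import Pool.Agent.Results.MP_11675a_co.SumBelow

set_option autoImplicit false

namespace Pool.Agent.Results.MP_11675a_co.NearTop

open Pool.Agent.Lib.MP_11675a_co

lemma red_prod {K y t : ℕ} (hK : 2 * y ≤ K) : ∀ (F : Finset ℕ),
    (∀ q ∈ F, q % 2 = 1 ∧ q ≤ t ^ 4 ∧ q ≤ y) →
    Red K (∏ q ∈ F, q) (F.card * (22 * t + 41)) := by
  intro F
  induction F using Finset.induction_on with
  | empty =>
    intro _
    simpa using Red.sq K 1
  | insert a F ha ih =>
    intro h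
    rw [Finset.prod_insert ha, Finset.card_insert_of_notMem ha]
    obtain ⟨h1, h2, h3⟩ := h a (by simp)
    have hR := (red_quartic (K := K) h1 h2 (by omega)).mul (ih (fun q hq => h q (by simp [hq])))
    refine hR.mono ?_
    ring_nf
    omega

theorem result (m p t : ℕ) (hsq : Squarefree m) (hm : m % 4 = 3) (hp : p.Prime) (hpm : p ∣ m)
    (hmax : ∀ q : ℕ, q.Prime → q ∣ m → q ≤ p) (ht : p ≤ t ^ 4)
    (hgap : ∀ q : ℕ, q.Prime → q ∣ m → q ≠ p →
      q + min (2 * Nat.primeCounting p) ((m.primeFactors.card - 1) * (11 * t + 21))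
        + (11 * t + 26) ≤ p) :
    HasEquilateralPolygon m p := by
  obtain ⟨M, rfl⟩ := hpm
  have hM0 : M ≠ 0 := by
    rintro rfl
    simp at hm
  have hMsq : Squarefree M := hsq.squarefree_of_dvd (dvd_mul_left M p)
  have hcop : ¬ p ∣ M := by
    have := Nat.squarefree_mul_iff.mp hsq
    exact (Nat.Prime.coprime_iff_not_dvd hp).mp this.1
  have hcard : (p * M).primeFactors.card = M.primeFactors.card + 1 := by
    rw [Nat.primeFactors_mul hp.ne_zero hM0, hp.primeFactors,
      Finset.card_union_of_disjoint, Finset.card_singleton, add_comm]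
    rw [Finset.disjoint_singleton_left]
    intro h
    exact hcop (Nat.dvd_of_mem_primeFactors h)
  rw [hcard, Nat.add_sub_cancel] at hgap
  have hModd : M % 2 = 1 := by
    rcases Nat.mod_two_eq_zero_or_one M with h | h
    · exfalso
      have : (p * M) % 2 = 0 := by rw [Nat.mul_mod, h]; simp
      omega
    · exact h
  have hfac : ∀ q ∈ M.primeFactors, q.Prime ∧ q ∣ p * M ∧ q ≠ p ∧ q % 2 = 1 := by
    intro q hq
    have hq' := Nat.prime_of_mem_primeFactors hq
    have hqd := Nat.dvd_of_mem_primeFactors hq
    have hqp : q ≠ p := by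
      rintro rfl
      exact hcop hqd
    have hqodd : q % 2 = 1 := by
      rcases Nat.mod_two_eq_zero_or_one q with h | h
      · exfalso
        have : 2 ∣ M := (Nat.dvd_of_mod_eq_zero h).trans hqd
        omega
      · exact h
    exact ⟨hq', hqd.mul_left p, hqp, hqodd⟩
  -- the second largest prime
  set y := M.primeFactors.sup id with hy
  have hyle : ∀ q ∈ M.primeFactors, q ≤ y := fun q hq => Finset.le_sup (f := id) hq
  by_cases hsmall : 2 * y < p
  · refine SumBelow.result (p * M) p hsq hm hp (dvd_mul_right p M) hmax ?_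
    intro q r hq hr hqm hrm _ hqp hrp
    have h1 : q ∈ M.primeFactors := by
      rw [Nat.mem_primeFactors]
      refine ⟨hq, ?_, hM0⟩
      rcases hq.dvd_mul.mp hqm with h | h
      · exact absurd ((Nat.prime_dvd_prime_iff_eq hq hp).mp h) hqp
      · exact h
    have h2 : r ∈ M.primeFactors := by
      rw [Nat.mem_primeFactors]
      refine ⟨hr, ?_, hM0⟩
      rcases hr.dvd_mul.mp hrm with h | h
      · exact absurd ((Nat.prime_dvd_prime_iff_eq hr hp).mp h) hrp
      · exact h
    have := hyle q h1
    have := hyle r h2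
    omega
  · push Not at hsmall
    have hne : M.primeFactors.Nonempty := by
      rw [Finset.nonempty_iff_ne_empty]
      intro h
      rw [h] at hy
      simp at hy
      have := hp.pos
      omega
    obtain ⟨y', hy', hyy⟩ := Finset.exists_mem_eq_sup M.primeFactors hne id
    have hyy' : y = y' := hyy
    rw [← hyy'] at hy'
    obtain ⟨hyp, hyd, hyne, hyodd⟩ := hfac y hy'
    have hg := hgap y hyp hyd hyne
    have hpi : Nat.primeCounting y ≤ Nat.primeCounting p :=
      Nat.monotone_primeCounting (hmax y hyp hyd)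
    -- choose c
    set μ := min (2 * Nat.primeCounting p) (M.primeFactors.card * (11 * t + 21)) with hμ
    obtain ⟨c, hc4, hc1, hc2⟩ : ∃ c : ℕ, c % 4 = p % 4 ∧ 2 * y + 4 ≤ p + c ∧
        c + 2 * μ + (22 * t + 41) + 4 ≤ p := by
      -- p - c = 4 j
      obtain ⟨j, hj1, hj2⟩ : ∃ j, 2 * μ + (22 * t + 41) + 4 ≤ 4 * j ∧
          4 * j ≤ 2 * μ + (22 * t + 41) + 7 :=
        ⟨(2 * μ + (22 * t + 41) + 7) / 4, by omega, by omega⟩
      exact ⟨p - 4 * j, by omega, by omega, by omega⟩
    have hRc : Red (p + c) c (22 * t + 41) := by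
      apply red_quartic (by
        rcases hp.eq_two_or_odd with h | h
        · exfalso
          subst h
          omega
        · omega) (by omega) (by omega)
    have hRM : Red (p + c) M (2 * μ) := by
      rcases le_total (2 * Nat.primeCounting p) (M.primeFactors.card * (11 * t + 21)) with h | h
      · rw [hμ, min_eq_left h]
        refine (red_pi y M hModd ?_ (by omega)).mono (by omega)
        intro q hq hqM
        exact hyle q (Nat.mem_primeFactors.mpr ⟨hq, hqM, hM0⟩)
      · rw [hμ, min_eq_right h]
        have hR := red_prod (K := p + c) (y := y) (t := t) (by omega) M.primeFactors (by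
          intro q hq
          have h1 := hyle q hq
          have h2 := hfac q hq
          exact ⟨h2.2.2.2, by omega, h1⟩)
        rw [Nat.prod_primeFactors_of_squarefree hMsq] at hR
        refine hR.mono ?_
        have : 2 * (M.primeFactors.card * (11 * t + 21)) =
          M.primeFactors.card * (22 * t + 42) := by ring
        rw [this]
        exact Nat.mul_le_mul_left _ (by omega)
    exact assemble hp hcop hMsq hm hc4 hRM hRc (by omega)

end Pool.Agent.Results.MP_11675a_co.NearTop
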